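import Pool.Agent.H84.ND.Targets1
import Pool.Agent.H78.SM.SDM
import Pool.Agent.H96.SM.IRR
import Pool.Agent.H13.SM.EUB

/-!
# LRS: the dimension inequality for the restriction to a line
-/

set_option autoImplicit false

namespace Pool.Agent.H11.ND

open MvPolynomial SC Pool.Agent.H27.LV Pool.Agent.H84.SM Pool.Agent.H84.ND

section

variable {k : Type} [Field k]

/-- a third point outside the line -/
theorem exists_third {a b : Fin 3 → k} (h : cr a b ≠ 0) : ∃ n : Fin 3 → k, dt a b n ≠ 0 := by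
  obtain ⟨i, hi⟩ := Function.ne_iff.1 h
  refine ⟨Pi.single i 1, ?_⟩
  have h1 : dt a b (Pi.single i 1) = cr a b i := by
    unfold dt dp cr
    fin_cases i <;> simp [Fin.sum_univ_three] <;> ring
  rw [h1]
  exact hi

/-- the form on the line is a form -/
theorem gL_hom {G : MvPolynomial (Fin 3) k} {d : ℕ} (hG : G.IsHomogeneous d) (a b : Fin 3 → k) :
    (gL G a b).IsHomogeneous d := by
  unfold gL
  have h := hG.aeval (n := 1) (fun i => (C (a i) * X 0 + C (b i) * X 1 : LL k)) (fun i => by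
    have h1 : (C (a i) * X 0 : LL k).IsHomogeneous 1 := by
      have := (isHomogeneous_C (Fin 2) (a i)).mul (isHomogeneous_X k (0 : Fin 2))
      rwa [zero_add] at this
    have h2 : (C (b i) * X 1 : LL k).IsHomogeneous 1 := by
      have := (isHomogeneous_C (Fin 2) (b i)).mul (isHomogeneous_X k (1 : Fin 2))
      rwa [zero_add] at this
    exact h1.add h2)
  rwa [one_mul] at h

/-- the map `ψ ↦ u ^ j ψ / g ^ j` -/
noncomputable def Fm (g : LL k) (j : ℕ) : LL k →ₗ[k] FractionRing (LL k) :=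
  (LinearMap.mulLeft k (algebraMap (LL k) (FractionRing (LL k)) (X 1 ^ j) *
    (algebraMap (LL k) (FractionRing (LL k)) g ^ j)⁻¹)).comp
    ((Algebra.linearMap (LL k) (FractionRing (LL k))).restrictScalars k)

theorem Fm_apply (g : LL k) (j : ℕ) (ψ : LL k) :
    Fm g j ψ = algebraMap (LL k) (FractionRing (LL k)) (X 1 ^ j) *
      (algebraMap (LL k) (FractionRing (LL k)) g ^ j)⁻¹ *
      algebraMap (LL k) (FractionRing (LL k)) ψ := rfl

open Classical in
/-- the target of the restriction -/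
noncomputable def Fs (g : LL k) (j : ℕ) (e : ℤ) : Submodule k (FractionRing (LL k)) :=
  if e < 0 then ⊥ else (homogeneousSubmodule (Fin 2) k e.toNat).map (Fm g j)

theorem Fs_fin (g : LL k) (j : ℕ) (e : ℤ) : Module.Finite k (Fs g j e) ∧
    Module.finrank k (Fs g j e) ≤ (e + 1).toNat := by
  classical
  by_cases h : e < 0
  · have hE : Fs g j e = ⊥ := by
      unfold Fs
      rw [if_pos h]
    rw [hE]
    refine ⟨inferInstance, ?_⟩
    rw [finrank_bot]
    exact Nat.zero_le _
  · have hE : Fs g j e = (homogeneousSubmodule (Fin 2) k e.toNat).map (Fm g j) := by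
      unfold Fs
      rw [if_neg h]
    rw [hE]
    have h1 : Module.Finite k (homogeneousSubmodule (Fin 2) k e.toNat) :=
      Module.Finite.iff_fg.2 (homogeneousSubmodule_fg (Fin 2) k e.toNat)
    refine ⟨inferInstance, ?_⟩
    refine (Submodule.finrank_map_le _ _).trans ?_
    rw [Pool.Agent.H78.SM.M.finrank_homog]
    rw [Fintype.card_fin, show (2 : ℕ) - 1 = 1 from rfl, Nat.choose_one_right]
    omega

end

theorem pf_LRS (hSME : T_SME) (hLRA : T_LRA) (hLRB : T_LRB) (hLRC : T_LRC) (hLRM : T_LRM)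
    (hTLN : T_TLN) (hLED : Pool.Agent.H84.SM.T_LED) : T_LRS := by
  classical
  intro k _ _ _ G d hd hG hsq i t hfin
  have hG0 : G ≠ 0 := hsq.ne_zero
  obtain ⟨a, b, hT⟩ := hTLN k G d hd hG hsq
  obtain ⟨n, hn⟩ := exists_third hT.ind
  obtain ⟨hgs, hgX, hg0, hB⟩ := hLRB k G d hd hG hsq a b n hT
  have hSM := hSME k G d hd hG hG0 i t
  have hSM' := hSME k G d hd hG hG0 i (t - 1)
  choose φ hφ using hLRM k G d hd hG hsq a b n hT i t
  have hgA : gA G ≠ 0 := Pool.Agent.H13.SM.gA_ne hG0
  have hgF : gF G ≠ 0 := by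
    unfold gF
    rw [Ne, FaithfulSMul.algebraMap_eq_zero_iff]
    exact hgA
  have hgK : algebraMap (LL k) (FractionRing (LL k)) (gL G a b) ≠ 0 := by
    rw [Ne, FaithfulSMul.algebraMap_eq_zero_iff]
    exact hg0
  -- the form of the line
  obtain ⟨ℓ, hℓ⟩ : ∃ ℓ : A2 k, ℓ = dp (fun i => C (cr a b i)) xa := ⟨_, rfl⟩
  obtain ⟨U, hU⟩ : ∃ U : Submodule k (F2 k), U =
      (SJ G d i (t - 1)).map (LinearMap.mulLeft k (algebraMap (A2 k) (F2 k) ℓ)) := ⟨_, rfl⟩
  have hUfin : Module.Finite k U := by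
    rw [hU]
    infer_instance
  have hUr : Module.finrank k U ≤ Module.finrank k (SJ G d i (t - 1)) := by
    rw [hU]
    exact Submodule.finrank_map_le _ _
  obtain ⟨W, hW⟩ : ∃ W : Submodule k (SJ G d i t), W = U.comap (SJ G d i t).subtype := ⟨_, rfl⟩
  obtain ⟨ι, hι⟩ : ∃ ι : W →ₗ[k] U, Function.Injective ι := by
    refine ⟨((SJ G d i t).subtype.comp W.subtype).codRestrict U (fun w => ?_), ?_⟩
    · have h1 : (w : SJ G d i t) ∈ U.comap (SJ G d i t).subtype := by
        rw [← hW]
        exact w.2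
      exact h1
    · intro w w' h
      have h1 : ((w : SJ G d i t) : F2 k) = ((w' : SJ G d i t) : F2 k) :=
        congrArg (fun z : U => (z : F2 k)) h
      exact Subtype.ext (Subtype.ext h1)
  have hWfin : Module.Finite k W := Module.Finite.of_injective ι hι
  have hWr : Module.finrank k W ≤ Module.finrank k (SJ G d i (t - 1)) :=
    (LinearMap.finrank_le_finrank_of_injective hι).trans hUr
  -- the data of a section
  have hsec : ∀ (M : ℕ) (c : A2 k), IsSec G d i t M (Polynomial.C c) →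
      dv c = 0 ∧ ∃ e : ℕ, (e : ℤ) = t - i + d * M ∧ BH e i c := by
    rintro M c ⟨h1, ⟨e, he, h2⟩, _⟩
    have h3 := h1 0
    rw [Polynomial.coeff_C_zero] at h3
    have h4 := (h2 0).1 (by omega)
    rw [Polynomial.coeff_C_zero] at h4
    exact ⟨h3, e, he, h4⟩
  have hcoef : ∀ (v : SJ G d i t) (M : ℕ) (c : A2 k), IsSec G d i t M (Polynomial.C c) →
      gF G ^ M * (v : F2 k) = algebraMap (A2 k) (F2 k) c → ∀ r, φ r v = 0 →
      (rho a b n c).coeff r = 0 := by
    intro v M c hs hc r hr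
    have h1 := hφ r v M c hs hc
    rw [hr, mul_zero] at h1
    exact (FaithfulSMul.algebraMap_eq_zero_iff (LL k) (FractionRing (LL k))).1 h1.symm
  have key := hLED k (SJ G d i t) (FractionRing (LL k)) (i + 1)
    (fun r => φ r) (fun r => Fs (gL G a b) (i - r)
      (((i - (r : ℕ) : ℕ) : ℤ) * ((d : ℤ) - 1) - i + t)) W
    (fun r => (Fs_fin _ _ _).1) hWfin ?_ ?_
  · refine ⟨key.1, key.2.trans (Nat.add_le_add hWr ?_)⟩
    unfold jd
    rw [← Finset.sum_range_reflect]
    have h1 := Fin.sum_univ_eq_sum_range (fun r => Module.finrank k (Fs (gL G a b) (i - r)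
      (((i - (r : ℕ) : ℕ) : ℤ) * ((d : ℤ) - 1) - i + t))) (i + 1)
    refine (le_of_eq h1).trans (Finset.sum_le_sum (fun r hr => ?_))
    refine ((Fs_fin _ _ _).2).trans (le_of_eq ?_)
    have h2 : i + 1 - 1 - r = i - r := by omega
    rw [h2]
  · -- all coefficients vanish
    intro v hv
    obtain ⟨M, c, hs, hc⟩ := (hSM (v : F2 k)).1 v.2
    obtain ⟨hdc, e, he, hBH⟩ := hsec M c hs
    have hrho : rho a b n c = 0 := by
      ext1 r
      rw [Polynomial.coeff_zero]
      rcases Nat.lt_or_ge i r with h | h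
      · exact (hLRA k a b n e i c hBH hdc 0 (Nat.zero_le _)).2.2 r h
      · exact hcoef v M c hs hc r (hv ⟨r, by omega⟩)
    rw [hW, Submodule.mem_comap, Submodule.coe_subtype, hU, Submodule.mem_map]
    by_cases hc0 : c = 0
    · refine ⟨0, Submodule.zero_mem _, ?_⟩
      rw [hc0, map_zero] at hc
      rcases mul_eq_zero.1 hc with h | h
      · exact absurd h (pow_ne_zero _ hgF)
      · rw [h, map_zero]
    · obtain ⟨c', hc', hs'⟩ := hLRC k G d hd hG hsq a b n hT hn i M t c hc0 hs hrho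
      rw [← hℓ] at hc'
      refine ⟨(gF G ^ M)⁻¹ * algebraMap (A2 k) (F2 k) c', ?_, ?_⟩
      · rw [hSM']
        refine ⟨M, c', hs', ?_⟩
        rw [← mul_assoc, mul_inv_cancel₀ (pow_ne_zero _ hgF), one_mul]
      · rw [LinearMap.mulLeft_apply]
        have h1 : (v : F2 k) = (gF G ^ M)⁻¹ * algebraMap (A2 k) (F2 k) c := by
          rw [← hc, ← mul_assoc, inv_mul_cancel₀ (pow_ne_zero _ hgF), one_mul]
        rw [h1, hc', map_mul]
        ring
  · -- the first non-zero coefficient
    intro v r hr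
    obtain ⟨M, c, hs, hc⟩ := (hSM (v : F2 k)).1 v.2
    obtain ⟨hdc, e, he, hBH⟩ := hsec M c hs
    have hri : (r : ℕ) ≤ i := by omega
    obtain ⟨hA1, hA2, _⟩ := hLRA k a b n e i c hBH hdc r hri
    obtain ⟨j, hj⟩ : ∃ j : ℕ, j = i - (r : ℕ) := ⟨_, rfl⟩
    rw [← hj] at hA2
    have hBv := hB i M t c hs r hri (fun r' hr' =>
      hcoef v M c hs hc r' (hr ⟨r', by omega⟩ (by
        rw [Fin.lt_def]
        exact hr')))
    rw [← hj] at hBv
    obtain ⟨ψ₁, hψ₁⟩ := hA2
    have hX1 : Prime (X 1 : LL k) := X_prime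
    have hdvd : gL G a b ^ M ∣ gL G a b ^ j * ψ₁ := by
      have h1 : gL G a b ^ M ∣ (X 1 : LL k) ^ j * (gL G a b ^ j * ψ₁) := by
        refine hBv.trans (dvd_of_eq ?_)
        rw [hψ₁]
        ring
      have h2 : IsRelPrime (gL G a b ^ M) ((X 1 : LL k) ^ j) := by
        apply IsRelPrime.pow
        rw [isRelPrime_comm, hX1.irreducible.isRelPrime_iff_not_dvd]
        exact hgX
      exact h2.dvd_of_dvd_mul_left h1
    obtain ⟨ψ, hψ⟩ := hdvd
    have hval : φ r v = Fm (gL G a b) j ψ := by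
      have h1 := hφ r v M c hs hc
      rw [hψ₁] at h1
      have h2 : algebraMap (LL k) (FractionRing (LL k)) (gL G a b) ^ j *
          algebraMap (LL k) (FractionRing (LL k)) ψ₁ =
          algebraMap (LL k) (FractionRing (LL k)) (gL G a b) ^ M *
          algebraMap (LL k) (FractionRing (LL k)) ψ := by
        rw [← map_pow, ← map_mul, hψ, map_mul, map_pow]
      rw [Fm_apply]
      have h3 := pow_ne_zero M hgK
      have h4 := pow_ne_zero j hgK
      apply mul_left_cancel₀ h3
      apply mul_left_cancel₀ h4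
      rw [h1, map_mul]
      have h5 : algebraMap (LL k) (FractionRing (LL k)) (gL G a b) ^ j *
          (algebraMap (LL k) (FractionRing (LL k)) (gL G a b) ^ M *
          (algebraMap (LL k) (FractionRing (LL k)) (X 1 ^ j) *
            (algebraMap (LL k) (FractionRing (LL k)) (gL G a b) ^ j)⁻¹ *
            algebraMap (LL k) (FractionRing (LL k)) ψ)) =
          algebraMap (LL k) (FractionRing (LL k)) (X 1 ^ j) *
          (algebraMap (LL k) (FractionRing (LL k)) (gL G a b) ^ M *
            algebraMap (LL k) (FractionRing (LL k)) ψ) *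
          (algebraMap (LL k) (FractionRing (LL k)) (gL G a b) ^ j *
            (algebraMap (LL k) (FractionRing (LL k)) (gL G a b) ^ j)⁻¹) := by ring
      rw [h5, mul_inv_cancel₀ h4, mul_one, ← h2]
      ring
    rw [hval]
    show Fm (gL G a b) j ψ ∈ Fs (gL G a b) (i - r) (((i - (r : ℕ) : ℕ) : ℤ) * ((d : ℤ) - 1) - i + t)
    rw [← hj]
    by_cases hψ0 : ψ = 0
    · rw [hψ0, map_zero]
      exact Submodule.zero_mem _
    · have hgM : gL G a b ^ M ≠ 0 := pow_ne_zero _ hg0
      have hgj : gL G a b ^ j ≠ 0 := pow_ne_zero _ hg0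
      have hψ₁0 : ψ₁ ≠ 0 := by
        intro h
        rw [h, mul_zero] at hψ
        exact mul_ne_zero hgM hψ0 hψ.symm
      -- degrees
      rw [hψ₁] at hA1
      obtain ⟨b1, c1, h1, h2, h3⟩ := Pool.Agent.H96.SM.homog_mul hA1
        (pow_ne_zero j (X_ne_zero 1)) hψ₁0
      have h4 : b1 = j := by
        have h5 := (isHomogeneous_X k (1 : Fin 2)).pow j
        rw [one_mul] at h5
        exact IsHomogeneous.inj_right h2 h5 (pow_ne_zero j (X_ne_zero 1))
      have h6 : (gL G a b ^ j * ψ₁).IsHomogeneous (d * j + c1) :=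
        ((gL_hom hG a b).pow j).mul h3
      rw [hψ] at h6
      obtain ⟨b2, c2, h7, h8, h9⟩ := Pool.Agent.H96.SM.homog_mul h6 hgM hψ0
      have h10 : b2 = d * M := IsHomogeneous.inj_right h8 ((gL_hom hG a b).pow M) hgM
      have h11 : (j : ℤ) * ((d : ℤ) - 1) - i + t = (c2 : ℤ) := by
        have h12 : ((b1 + c1 : ℕ) : ℤ) = (e : ℤ) := by rw [h1]
        have h13 : ((b2 + c2 : ℕ) : ℤ) = ((d * j + c1 : ℕ) : ℤ) := by rw [h7]
        rw [h4] at h12
        rw [h10] at h13
        push_cast at h12 h13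
        linear_combination - h13 - h12 - he
      rw [h11]
      unfold Fs
      rw [if_neg (by omega)]
      refine Submodule.mem_map_of_mem ?_
      rw [Int.toNat_natCast, mem_homogeneousSubmodule]
      exact h9

end Pool.Agent.H11.ND
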